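import Pool.Agent.H97.GreenOwn.Final
import Pool.Agent.H97.GreenOwn.Finite

set_option autoImplicit false

/-!
# A pluricomplex Green function with one pole that is not `C²` in the interior
-/

namespace Pool.Agent.Results.MP_9ce036_an.NotTwiceDifferentiable

open Pool.Agent.H97.GreenOwn

/-- There are a bounded strictly pseudoconvex domain `Ω` in `ℂ²` with smooth boundary, a pole `w`
in `Ω` and a point `p ≠ w` of `Ω` such that the pluricomplex Green function of `Ω` with pole `w` is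
real valued on `Ω ∖ {w}`, it is not `C²` on `Ω ∖ {w}`, and it has no Taylor expansion of order two
at `p` (so it is not twice differentiable at `p`). -/
theorem result : ∃ (Ω : Set (CC 2)) (w p : CC 2), StrictlyPseudoconvex Ω ∧ w ∈ Ω ∧ p ∈ Ω ∧ p ≠ w ∧
    (∀ z ∈ Ω \ {w}, green Ω w z ≠ ⊥ ∧ green Ω w z ≠ ⊤) ∧
    ¬ IsC2On (greenR Ω w) (Ω \ {w}) ∧ ¬ Expands (greenR Ω w) p := by
  obtain ⟨c, ε, a, hc, hε, hB, hb, hab, haa⟩ := Pool.Agent.H97.Green.exists_bump
  obtain ⟨p, hp, hne, hnC⟩ := not_expands hc.le hε haa hb hab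
  have hopen := Pool.Agent.H97.Green.isOpen_Om c hε
  have hbd := Pool.Agent.H97.Green.isBounded_Om hc.le hε
  refine ⟨Pool.Agent.H97.Green.Om c ε, 0, p, ⟨hopen, Pool.Agent.H97.Green.isConnected_Om c ε,
    hbd, Pool.Agent.H97.Green.rf c ε,
    Pool.Agent.H97.Green.contDiff_rf c hε, rfl, fun z hz => ?_⟩, Pool.Agent.H97.Green.zero_mem_Om c ε, hp.1,
    hp.2, fun z hz => green_finite hbd hz.1 hz.2, fun h => ?_, hne⟩
  · obtain ⟨h1, h2⟩ := Pool.Agent.H97.Green.rf_levi hε hB z hz
    exact defining (Pool.Agent.H97.Green.contDiff_rf c hε) h1 h2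
  · exact hnC (ContDiffOn.contDiffAt h ((hopen.sdiff isClosed_singleton).mem_nhds hp))

end Pool.Agent.Results.MP_9ce036_an.NotTwiceDifferentiable
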